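import Pool.Agent.L7h4.SF.Stm

/-!
Project SF (helper4), part G1: the case of a scalar part `b` with `b ^ 2` different from one.
-/

set_option autoImplicit false

noncomputable section

namespace Pool.Agent.L7h99.SF

open Matrix Pool.Agent.L7h4.SF Pool.Agent.L7h4.F5

theorem g1_core (hC : S_C3) (a b x : ℂ) (hab : a * b = 1) (hx : x ^ 2 = 1) (hne : a - b ≠ 0)
    (hax : a - x ≠ 0) :
    Good 4 (b • (1 : Mat 3) + vecMulVec ![-(1 + a * x), 0, 1] ![b - a, 0, x - a]) := by
  set t1 : Mat 3 := !![0, 1, 0; 1, 0, 0; 0, 0, 1] with ht1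
  set t2 : Mat 3 := !![0, b, 0; a, 0, 0; 0, 0, x] with ht2
  set w1 : ℂ := x * (a - b) with hw1
  set t3 : Mat 3 := !![1 - w1, 0, -w1; 0, 1, 0; w1 - 2, 0, w1 - 1] with ht3
  set t4 : Mat 3 := !![1, 0, 0; 0, 1, 0; -2, 0, -1] with ht4
  have hx' : x * x = 1 := by linear_combination hx
  have hba : b * a = 1 := by linear_combination hab
  have s1 : t1 * t1 = 1 := by
    ext i j
    fin_cases i <;> fin_cases j <;>
      simp [ht1, Matrix.mul_apply, Fin.sum_univ_three, Matrix.one_apply]
  have s2 : t2 * t2 = 1 := by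
    ext i j
    fin_cases i <;> fin_cases j <;>
      simp [ht2, Matrix.mul_apply, Fin.sum_univ_three, Matrix.one_apply, hab, hba, hx']
  have s3 : t3 * t3 = 1 := by
    ext i j
    fin_cases i <;> fin_cases j <;>
      simp [ht3, Matrix.mul_apply, Fin.sum_univ_three, Matrix.one_apply] <;> ring
  have s4 : t4 * t4 = 1 := by
    ext i j
    fin_cases i <;> fin_cases j <;>
      simp [ht4, Matrix.mul_apply, Fin.sum_univ_three, Matrix.one_apply]
  have hR : t1 * t2 = !![a, 0, 0; 0, b, 0; 0, 0, x] := by
    ext i j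
    fin_cases i <;> fin_cases j <;>
      simp [ht1, ht2, Matrix.mul_apply, Fin.sum_univ_three]
  have hT : t3 * t4 = 1 + vecMulVec ![w1, 0, -w1] ![1, 0, 1] := by
    ext i j
    fin_cases i <;> fin_cases j <;>
      simp [ht3, ht4, Matrix.mul_apply, Fin.sum_univ_three, Matrix.one_apply, vecMulVec_apply] <;>
      ring
  have hprod : t1 * (t2 * (t3 * t4)) =
      b • (1 : Mat 3) + vecMulVec ![-(1 + a * x), 0, 1] ![b - a, 0, x - a] := by
    rw [← Matrix.mul_assoc, hR, hT]
    ext i j
    fin_cases i <;> fin_cases j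
    · simp [Matrix.mul_apply, Fin.sum_univ_three, Matrix.one_apply, vecMulVec_apply, hw1]
      ring
    · simp [Matrix.mul_apply, Fin.sum_univ_three, Matrix.one_apply, vecMulVec_apply, hw1]
    · simp [Matrix.mul_apply, Fin.sum_univ_three, Matrix.one_apply, vecMulVec_apply, hw1]
      linear_combination (-x) * hab + a * hx
    · simp [Matrix.mul_apply, Fin.sum_univ_three, Matrix.one_apply, vecMulVec_apply, hw1]
    · simp [Matrix.mul_apply, Fin.sum_univ_three, Matrix.one_apply, vecMulVec_apply, hw1]
    · simp [Matrix.mul_apply, Fin.sum_univ_three, Matrix.one_apply, vecMulVec_apply, hw1]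
    · simp [Matrix.mul_apply, Fin.sum_univ_three, Matrix.one_apply, vecMulVec_apply, hw1]
      linear_combination (-(a - b)) * hx
    · simp [Matrix.mul_apply, Fin.sum_univ_three, Matrix.one_apply, vecMulVec_apply, hw1]
    · simp [Matrix.mul_apply, Fin.sum_univ_three, Matrix.one_apply, vecMulVec_apply, hw1]
      linear_combination (-(a - b)) * hx
  refine ⟨![t1, t2, t3, t4], ?_, ?_, ?_⟩
  · intro i
    fin_cases i
    · exact s1
    · exact s2
    · exact s3
    · exact s4
  · simp only [List.ofFn_succ, List.ofFn_zero, List.prod_cons, List.prod_nil, mul_one]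
    exact hprod
  · set G := Submonoid.closure (Set.range ![t1, t2, t3, t4]) with hG
    have m1 : t1 ∈ G := Submonoid.subset_closure ⟨0, rfl⟩
    have m2 : t2 ∈ G := Submonoid.subset_closure ⟨1, rfl⟩
    have m3 : t3 ∈ G := Submonoid.subset_closure ⟨2, rfl⟩
    have m4 : t4 ∈ G := Submonoid.subset_closure ⟨3, rfl⟩
    refine hC 3 G ![w1, 0, -w1] ![1, 0, 1] ![1, t1 * t2, t1] ![1, t2 * t1, t1] ?_ ?_ ?_ ?_ ?_ ?_ ?_
    · intro h
      have h0 := congrFun h 0
      have h1 : w1 = 0 := by simpa using h0
      rw [hw1] at h1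
      rcases mul_eq_zero.mp h1 with h2 | h2
      · rw [h2] at hx'
        simp at hx'
      · exact hne h2
    · simp [dotProduct, Fin.sum_univ_three]
    · rw [← hT]
      exact G.mul_mem m3 m4
    · intro k
      fin_cases k
      · exact G.one_mem
      · exact G.mul_mem m1 m2
      · exact m1
    · intro k
      fin_cases k
      · exact G.one_mem
      · exact G.mul_mem m2 m1
      · exact m1
    · intro k
      fin_cases k
      · exact mul_one 1
      · show t1 * t2 * (t2 * t1) = 1
        rw [Matrix.mul_assoc, ← Matrix.mul_assoc t2 t2 t1, s2, Matrix.one_mul, s1]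
      · exact s1
    · have e : (Matrix.of fun k => (![1, 0, 1] : Fin 3 → ℂ) ᵥ*
          (![1, t1 * t2, t1] : Fin 3 → Mat 3) k) = !![1, 0, 1; a, 0, x; 0, 1, 1] := by
        ext i j
        rw [hR]
        fin_cases i <;> fin_cases j <;>
          simp [Matrix.vecMul, dotProduct, Fin.sum_univ_three, ht1]
      rw [e, Matrix.det_fin_three]
      simp
      intro h
      apply hax
      linear_combination h

theorem s_G1 (hC : S_C3) : S_G1 := by
  intro b x hb hb2 hx
  have hab : b⁻¹ * b = 1 := inv_mul_cancel₀ hb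
  have hne : b⁻¹ - b ≠ 0 := by
    intro h
    apply hb2
    have h1 : b⁻¹ = b := by linear_combination h
    rw [h1] at hab
    linear_combination hab
  have hax : b⁻¹ - x ≠ 0 := by
    intro h
    apply hb2
    have h1 : b⁻¹ = x := by linear_combination h
    rw [h1] at hab
    have : x ^ 2 * b ^ 2 = 1 := by
      calc x ^ 2 * b ^ 2 = (x * b) ^ 2 := by ring
        _ = 1 := by rw [hab]; ring
    rw [hx, one_mul] at this
    exact this
  refine ⟨![-(1 + b⁻¹ * x), 0, 1], ![b - b⁻¹, 0, x - b⁻¹], ?_, ?_, ?_,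
    g1_core hC b⁻¹ b x hab hx hne hax⟩
  · intro h
    have := congrFun h 2
    simp at this
  · intro h
    have h0 := congrFun h 0
    have h1 : b - b⁻¹ = 0 := by simpa using h0
    apply hne
    linear_combination -h1
  · have h2 : x / b ^ 2 = (b⁻¹) ^ 2 * x := by
      field_simp
    rw [h2]
    simp [dotProduct, Fin.sum_univ_three]
    linear_combination (-x) * hab

end Pool.Agent.L7h99.SF
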